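import Pool.Agent.H30.VR.Targets

/-!
# Board ver_modules, row CAT (helper79): a cyclic sequence of lists
-/

set_option autoImplicit false

open Finset Pool.Agent.H48.CE

namespace Pool.Agent.H79.VR

open Pool.Agent.H30.VR

/-- the concatenation of the first lists -/
def FF {V : Type} (L : ℕ → List V) : ℕ → List V
  | 0 => []
  | M + 1 => FF L M ++ L M

theorem pf_CAT : T_CAT := by
  intro V G N L hN hL hdis hadj hlen
  have key : ∀ M : ℕ, 1 ≤ M → M ≤ N → FF L M ≠ [] ∧ (FF L M).Nodup ∧ (FF L M).IsChain G.Adj ∧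
      (FF L M).length = ∑ i ∈ range M, (L i).length ∧ (FF L M).head? = (L 0).head? ∧
      (FF L M).getLast? = (L (M - 1)).getLast? ∧ ∀ v ∈ FF L M, ∃ i < M, v ∈ L i := by
    intro M hM
    induction M, hM using Nat.le_induction with
    | base =>
      intro h1
      obtain ⟨a, b, c⟩ := hL 0 (by omega)
      have e : FF L 1 = L 0 := by simp [FF]
      rw [e]
      refine ⟨a, b, c, by simp, rfl, rfl, fun v hv => ⟨0, by omega, hv⟩⟩
    | succ M hM ih =>
      intro hMN
      obtain ⟨i1, i2, i3, i4, i5, i6, i7⟩ := ih (by omega)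
      obtain ⟨a, b, c⟩ := hL M (by omega)
      have e : FF L (M + 1) = FF L M ++ L M := rfl
      rw [e]
      refine ⟨by simp [i1], ?_, ?_, ?_, ?_, ?_, ?_⟩
      · refine List.Nodup.append i2 b ?_
        intro v hv hv'
        obtain ⟨i, hi, hvi⟩ := i7 v hv
        exact hdis i (by omega) M (by omega) (by omega) v hvi hv'
      · rw [List.isChain_append]
        refine ⟨i3, c, ?_⟩
        intro x hx y hy
        rw [i6] at hx
        refine hadj (M - 1) (by omega) x hx y ?_
        have e1 : (M - 1 + 1) % N = M := by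
          rw [Nat.sub_add_cancel hM]
          exact Nat.mod_eq_of_lt (by omega)
        rw [e1]
        exact hy
      · rw [List.length_append, i4, sum_range_succ]
      · rw [List.head?_append_of_ne_nil _ i1, i5]
      · rw [List.getLast?_append_of_ne_nil _ a]
        rfl
      · intro v hv
        rw [List.mem_append] at hv
        rcases hv with hv | hv
        · obtain ⟨i, hi, hvi⟩ := i7 v hv
          exact ⟨i, by omega, hvi⟩
        · exact ⟨M, by omega, hv⟩
  obtain ⟨i1, i2, i3, i4, i5, i6, i7⟩ := key N hN le_rfl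
  rw [← i4] at hlen ⊢
  obtain ⟨x, hx⟩ : ∃ x, (L 0).head? = some x := by
    have h := (hL 0 (by omega)).1
    cases hc : L 0 with
    | nil => exact absurd hc h
    | cons a m => exact ⟨a, rfl⟩
  obtain ⟨y, hy⟩ : ∃ y, (L (N - 1)).getLast? = some y := by
    have h := (hL (N - 1) (by omega)).1
    exact ⟨(L (N - 1)).getLast h, List.getLast?_eq_getLast_of_ne_nil h⟩
  refine cy_of_list hlen i2 i3 (i5.trans hx) (i6.trans hy) ?_
  refine hadj (N - 1) (by omega) y (by rw [hy]; rfl) x ?_
  have e1 : (N - 1 + 1) % N = 0 := by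
    rw [Nat.sub_add_cancel hN]
    exact Nat.mod_self N
  rw [e1, hx]
  rfl

end Pool.Agent.H79.VR
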