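import Pool.Agent.H30.VR.Targets

/-!
# Board ver_modules, row INC (helper79): every dense pair contains a large lower regular pair
-/

set_option autoImplicit false

open Finset Pool.Agent.H48.CE

namespace Pool.Agent.H79.VR

open Pool.Agent.H30.VR

theorem pf_INC (hAVE : T_AVE) (hBLK : T_BLK) : T_INC := by
  intro V G r s q δ A B hr hq hδ h1 hA hB hd
  set κ : ℝ := 1 + 1 / (2 * (r : ℝ) ^ 2) with hκ
  have hr0 : (0 : ℝ) < r := by
    have : 0 < r := by omega
    exact_mod_cast this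
  have hκ1 : 1 ≤ κ := by
    rw [hκ]
    have : 0 ≤ 1 / (2 * (r : ℝ) ^ 2) := by positivity
    linarith
  have key : ∀ i : ℕ, i ≤ s → (∃ t : ℕ, q ≤ t ∧ r * t ≤ r ^ s * q ∧ ∃ A' ⊆ A, ∃ B' ⊆ B,
      A'.card = r * t ∧ B'.card = r * t ∧ LR G (δ / 2) t A' B') ∨
      ∃ A' ⊆ A, ∃ B' ⊆ B, A'.card = r ^ (s - i) * q ∧ B'.card = r ^ (s - i) * q ∧
        δ * κ ^ i * A'.card * B'.card ≤ ee G A' B' := by
    intro i
    induction i with
    | zero =>
      intro _
      right
      refine ⟨A, Subset.rfl, B, Subset.rfl, by simpa using hA, by simpa using hB, ?_⟩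
      rw [pow_zero, mul_one]
      exact hd
    | succ i ih =>
      intro hi
      rcases ih (by omega) with h | ⟨A', hA', B', hB', cA, cB, hee⟩
      · exact Or.inl h
      obtain ⟨t, ht⟩ : ∃ t : ℕ, t = r ^ (s - (i + 1)) * q := ⟨_, rfl⟩
      have hrt : r ^ (s - i) * q = r * t := by
        have e : s - i = (s - (i + 1)) + 1 := by omega
        rw [ht, e, pow_succ]
        ring
      have hqt : q ≤ t := by
        rw [ht]
        exact Nat.le_mul_of_pos_left q (Nat.pow_pos (by omega))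
      rw [hrt] at cA cB
      by_cases hLR : LR G (δ / 2) t A' B'
      · left
        refine ⟨t, hqt, ?_, A', hA', B', hB', cA, cB, hLR⟩
        rw [← hrt]
        exact Nat.mul_le_mul_right _ (Nat.pow_le_pow_right (by omega) (by omega))
      · right
        unfold LR at hLR
        push Not at hLR
        obtain ⟨A₁, hA₁, B₁, hB₁, ht1, ht2, hlt⟩ := hLR
        obtain ⟨A₀, hA₀, B₀, hB₀, cA₀, cB₀, hlt0⟩ := hAVE G A₁ B₁ (δ / 2) t (by omega) ht1 ht2 hlt
        have hκi : 1 ≤ κ ^ i := one_le_pow₀ hκ1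
        have hδi : δ ≤ δ * κ ^ i := by nlinarith
        have hlt1 : (ee G A₀ B₀ : ℝ) < δ * κ ^ i / 2 * t * t := by
          refine lt_of_lt_of_le hlt0 ?_
          have : (0 : ℝ) ≤ (t : ℝ) * t := by positivity
          nlinarith
        obtain ⟨A₂, hA₂, B₂, hB₂, cA₂, cB₂, h2⟩ := hBLK G A' B' A₀ B₀ (δ * κ ^ i) r t hr
          (by omega) (by positivity) cA cB (hA₀.trans hA₁) (hB₀.trans hB₁) cA₀ cB₀ hee hlt1
        refine ⟨A₂, hA₂.trans hA', B₂, hB₂.trans hB', by rw [cA₂, ht], by rw [cB₂, ht], ?_⟩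
        rw [cA₂, cB₂, pow_succ, ← mul_assoc]
        exact h2
  rcases key s le_rfl with h | ⟨A', -, B', -, cA, cB, hee⟩
  · exact h
  · exfalso
    rw [Nat.sub_self, pow_zero, one_mul] at cA cB
    have h2 : (ee G A' B' : ℝ) ≤ (q : ℝ) * q := by
      have := ee_le_mul (G := G) A' B'
      rw [cA, cB] at this
      exact_mod_cast this
    rw [cA, cB] at hee
    have hq0 : (0 : ℝ) < (q : ℝ) * q := by
      have : (0 : ℝ) < q := by exact_mod_cast (by omega : 0 < q)
      positivity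
    nlinarith

end Pool.Agent.H79.VR
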